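import Mathlib

set_option autoImplicit false

namespace Pool.Agent.H903Z.IG

/-- `S` is an independent dominating set of `G`: no two vertices of `S` are adjacent and every
vertex outside `S` has a neighbour in `S`. -/
def IsIndepDom {V : Type} (G : SimpleGraph V) (S : Finset V) : Prop :=
  (∀ u ∈ S, ∀ v ∈ S, ¬ G.Adj u v) ∧ ∀ v, v ∉ S → ∃ u ∈ S, G.Adj v u

/-- `S` is an `i`-set of `G`: an independent dominating set of minimum size. -/
def IsISet {V : Type} (G : SimpleGraph V) (S : Finset V) : Prop :=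
  IsIndepDom G S ∧ ∀ T : Finset V, IsIndepDom G T → S.card ≤ T.card

/-- The `i`-graph of `G`: its vertices are the `i`-sets of `G`, and `X`, `Y` are adjacent when
`Y = (X \ {u}) ∪ {v}` for some `u ∈ X`, `v ∉ X` with `uv` an edge of `G`. -/
def iGraph {V : Type} [DecidableEq V] (G : SimpleGraph V) :
    SimpleGraph {S : Finset V // IsISet G S} where
  Adj X Y := ∃ u ∈ X.1, ∃ v, v ∉ X.1 ∧ G.Adj u v ∧ Y.1 = insert v (X.1.erase u)
  symm := ⟨by
    rintro X Y ⟨u, hu, v, hv, huv, h⟩
    refine ⟨v, by simp [h], u, by simp [h, huv.ne], huv.symm, ?_⟩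
    rw [h, Finset.erase_insert (fun h' => hv (Finset.mem_of_mem_erase h')),
      Finset.insert_erase hu]⟩
  loopless := ⟨by
    rintro X ⟨u, _, v, hv, _, h⟩
    exact hv (by rw [h]; simp)⟩

/-- `H` is an `i`-graph: it is isomorphic to the `i`-graph of some finite graph. -/
def IsIGraph {W : Type} (H : SimpleGraph W) : Prop :=
  ∃ (m : ℕ) (G : SimpleGraph (Fin m)), Nonempty (H ≃g iGraph G)

end Pool.Agent.H903Z.IG
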