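import Mathlib
import Pool.Agent.H903Z.IGDefs

set_option autoImplicit false

namespace Pool.Agent.H903Z.IG

section general
variable {V : Type} [DecidableEq V] {G : SimpleGraph V}

omit [DecidableEq V] in
lemma card_eq (A B : {S : Finset V // IsISet G S}) : A.1.card = B.1.card :=
  le_antisymm (A.2.2 _ B.2.1) (B.2.2 _ A.2.1)

lemma close (A B : {S : Finset V // IsISet G S}) (w : V)
    (h : ∀ z ∈ A.1, z ∉ B.1 → z = w) : A = B ∨ (iGraph G).Adj A B := by
  by_cases hw : w ∈ A.1 ∧ w ∉ B.1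
  · right
    obtain ⟨hwA, hwB⟩ := hw
    have hsub : A.1.erase w ⊆ B.1 := by
      intro z hz
      by_contra hzB
      exact (Finset.ne_of_mem_erase hz) (h z (Finset.mem_of_mem_erase hz) hzB)
    have hcard : (A.1.erase w).card + 1 = B.1.card := by
      rw [Finset.card_erase_add_one hwA, card_eq A B]
    obtain ⟨v, hvB, hvA⟩ : ∃ v ∈ B.1, v ∉ A.1.erase w := by
      by_contra hcon
      push Not at hcon
      have := Finset.card_le_card (show B.1 ⊆ A.1.erase w from hcon)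
      omega
    have hBeq : B.1 = insert v (A.1.erase w) := by
      symm
      apply Finset.eq_of_subset_of_card_le
      · exact Finset.insert_subset hvB hsub
      · rw [Finset.card_insert_of_notMem hvA]; omega
    have hvA' : v ∉ A.1 := by
      intro hv
      apply hvA
      refine Finset.mem_erase.2 ⟨?_, hv⟩
      rintro rfl
      exact hwB hvB
    obtain ⟨u, huA, hvu⟩ := A.2.1.2 v hvA'
    have huw : u = w := by
      by_contra hne
      exact B.2.1.1 v hvB u (hsub (Finset.mem_erase.2 ⟨hne, huA⟩)) hvu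
    subst huw
    exact ⟨u, huA, v, hvA', hvu.symm, hBeq⟩
  · left
    have hsub : A.1 ⊆ B.1 := by
      intro z hz
      by_contra hzB
      have := h z hz hzB
      subst this
      exact hw ⟨hz, hzB⟩
    exact Subtype.ext (Finset.eq_of_subset_of_card_le hsub (card_eq B A).le)

lemma adj_unique {A B : {S : Finset V // IsISet G S}} (h : (iGraph G).Adj A B) :
    ∃ u ∈ A.1, u ∉ B.1 ∧ ∀ z ∈ A.1, z ∉ B.1 → z = u := by
  obtain ⟨u, hu, v, hv, huv, hB⟩ := h
  refine ⟨u, hu, by simp [hB, huv.ne], fun z hz hzB => ?_⟩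
  by_contra hne
  exact hzB (by simp [hB, hne, hz])

/-- Opposite edges of an induced square slide the same token. -/
lemma square {X Y X' Y' : {S : Finset V // IsISet G S}} (hXY : (iGraph G).Adj X Y)
    (hXX : (iGraph G).Adj X X') (hYY : (iGraph G).Adj Y Y')
    (h1 : X ≠ Y') (h2 : ¬ (iGraph G).Adj X Y') (h3 : Y ≠ X') (h4 : ¬ (iGraph G).Adj Y X')
    {u : V} (huX : u ∈ X.1) (huY : u ∉ Y.1) : u ∈ X'.1 ∧ u ∉ Y'.1 := by
  obtain ⟨v, hvY, hvX, hv⟩ := adj_unique hXY.symm
  obtain ⟨a, haX, haX', ha⟩ := adj_unique hXX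
  obtain ⟨c, hcY', hcY, hc⟩ := adj_unique hYY.symm
  constructor
  · by_contra huX'
    have hua : u = a := ha u huX huX'
    rcases close Y X' v (fun z hz hzX' => by
      by_contra hne
      have hzX : z ∈ X.1 := by
        by_contra hzX
        exact hne (hv z hz hzX)
      have := ha z hzX hzX'
      exact huY (by rw [hua, ← this]; exact hz)) with h | h
    · exact h3 h
    · exact h4 h
  · intro huY'
    have huc : u = c := hc u huY' huY
    rcases close Y' X v (fun z hz hzX => by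
      by_cases hzY : z ∈ Y.1
      · exact hv z hzY hzX
      · have := hc z hz hzY
        exact absurd (by rw [this, ← huc]; exact huX) hzX) with h | h
    · exact h1 h.symm
    · exact h2 h.symm

end general

/-- The Moebius ladder on `2 n` vertices. -/
def moeb (n : ℕ) : SimpleGraph (Fin (2 * n)) where
  Adj i j := i ≠ j ∧ (i.val + 1 = j.val ∨ j.val + 1 = i.val ∨ (i.val = 0 ∧ j.val + 1 = 2 * n) ∨
    (j.val = 0 ∧ i.val + 1 = 2 * n) ∨ i.val + n = j.val ∨ j.val + n = i.val)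
  symm := ⟨by
    rintro i j ⟨h1, h2⟩
    exact ⟨h1.symm, by omega⟩⟩
  loopless := ⟨fun i h => h.1 rfl⟩

lemma moeb_adj {n : ℕ} (i j : Fin (2 * n)) : (moeb n).Adj i j ↔ i.val ≠ j.val ∧
    (i.val + 1 = j.val ∨ j.val + 1 = i.val ∨ (i.val = 0 ∧ j.val + 1 = 2 * n) ∨
    (j.val = 0 ∧ i.val + 1 = 2 * n) ∨ i.val + n = j.val ∨ j.val + n = i.val) := by
  simp [moeb, Fin.ext_iff]

lemma moeb_mk {n : ℕ} (a b : ℕ) (ha : a < 2 * n) (hb : b < 2 * n) :
    (moeb n).Adj ⟨a, ha⟩ ⟨b, hb⟩ ↔ a ≠ b ∧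
    (a + 1 = b ∨ b + 1 = a ∨ (a = 0 ∧ b + 1 = 2 * n) ∨
    (b = 0 ∧ a + 1 = 2 * n) ∨ a + n = b ∨ b + n = a) := moeb_adj _ _

lemma moeb_not {n : ℕ} (hn : 3 ≤ n) : ¬ IsIGraph (moeb n) := by
  rintro ⟨m, G, ⟨φ⟩⟩
  have hadj : ∀ i j, (iGraph G).Adj (φ i) (φ j) ↔ (moeb n).Adj i j := fun i j => φ.map_rel_iff
  have hne : ∀ i j : Fin (2 * n), i.val ≠ j.val → φ i ≠ φ j := fun i j h h' =>
    h (congrArg Fin.val (φ.injective h'))
  have step : ∀ (a b c d : Fin (2 * n)), (moeb n).Adj a b → (moeb n).Adj a c →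
      (moeb n).Adj b d → a.val ≠ d.val → ¬ (moeb n).Adj a d → b.val ≠ c.val →
      ¬ (moeb n).Adj b c → ∀ u, u ∈ (φ a).1 → u ∉ (φ b).1 → u ∈ (φ c).1 ∧ u ∉ (φ d).1 := by
    intro a b c d h1 h2 h3 h4 h5 h6 h7 u hu hu'
    exact square ((hadj _ _).2 h1) ((hadj _ _).2 h2) ((hadj _ _).2 h3) (hne _ _ h4)
      (fun h => h5 ((hadj _ _).1 h)) (hne _ _ h6) (fun h => h7 ((hadj _ _).1 h)) hu hu'
  obtain ⟨u, hu0, hun, -⟩ := adj_unique ((hadj ⟨0, by omega⟩ ⟨n, by omega⟩).2
    ((moeb_adj _ _).2 (by simp only; omega)))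
  have inv : ∀ i (hi : i < n), u ∈ (φ ⟨i, by omega⟩).1 ∧ u ∉ (φ ⟨i + n, by omega⟩).1 := by
    intro i
    induction i with
    | zero => intro _; exact ⟨hu0, by simpa using hun⟩
    | succ i ih =>
      intro hi
      obtain ⟨h1, h2⟩ := ih (by omega)
      refine step ⟨i, by omega⟩ ⟨i + n, by omega⟩ ⟨i + 1, by omega⟩ ⟨i + 1 + n, by omega⟩
        ?_ ?_ ?_ ?_ ?_ ?_ ?_ u h1 h2
      · rw [moeb_mk]; omega
      · rw [moeb_mk]; omega
      · rw [moeb_mk]; omega
      · simp only; omega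
      · rw [moeb_mk]; rintro ⟨h0, h | h | h | h | h | h⟩ <;> omega
      · simp only; omega
      · rw [moeb_mk]; rintro ⟨h0, h | h | h | h | h | h⟩ <;> omega
  obtain ⟨h1, h2⟩ := inv (n - 1) (by omega)
  have := step ⟨n - 1, by omega⟩ ⟨n - 1 + n, by omega⟩ ⟨n, by omega⟩ ⟨0, by omega⟩
    (by rw [moeb_mk]; omega) (by rw [moeb_mk]; omega)
    (by rw [moeb_mk]; exact ⟨by omega, Or.inr (Or.inr (Or.inr (Or.inl ⟨rfl, by omega⟩)))⟩)
    (by simp only; omega)
    (by rw [moeb_mk]; rintro ⟨h0, h | h | h | h | h | h⟩ <;> omega) (by simp only; omega)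
    (by rw [moeb_mk]; rintro ⟨h0, h | h | h | h | h | h⟩ <;> omega) u h1 h2
  exact this.2 hu0

/-- The seed graph of the ladder: the complement of a path on `0, ..., n`, and a disjoint edge. -/
def seed (n : ℕ) : SimpleGraph (Fin (n + 3)) where
  Adj x y := (x.val ≤ n ∧ y.val ≤ n ∧ (x.val + 2 ≤ y.val ∨ y.val + 2 ≤ x.val)) ∨
    (x.val = n + 1 ∧ y.val = n + 2) ∨ (x.val = n + 2 ∧ y.val = n + 1)
  symm := ⟨by intro x y h; omega⟩
  loopless := ⟨by intro x h; omega⟩

lemma seed_adj {n : ℕ} (x y : Fin (n + 3)) : (seed n).Adj x y ↔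
    (x.val ≤ n ∧ y.val ≤ n ∧ (x.val + 2 ≤ y.val ∨ y.val + 2 ≤ x.val)) ∨
    (x.val = n + 1 ∧ y.val = n + 2) ∨ (x.val = n + 2 ∧ y.val = n + 1) := Iff.rfl

lemma seed_three {n : ℕ} (hn : 1 ≤ n) (T : Finset (Fin (n + 3))) (hT : IsIndepDom (seed n) T) :
    3 ≤ T.card := by
  obtain ⟨c, hcT, hc⟩ : ∃ c ∈ T, n + 1 ≤ c.val := by
    by_cases h : (⟨n + 1, by omega⟩ : Fin (n + 3)) ∈ T
    · exact ⟨_, h, le_rfl⟩
    · obtain ⟨u, hu, hadj⟩ := hT.2 _ h
      rw [seed_adj] at hadj
      simp only at hadj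
      exact ⟨u, hu, by omega⟩
  obtain ⟨a, haT, ha⟩ : ∃ a ∈ T, a.val ≤ n := by
    by_cases h : (⟨0, by omega⟩ : Fin (n + 3)) ∈ T
    · exact ⟨_, h, Nat.zero_le _⟩
    · obtain ⟨u, hu, hadj⟩ := hT.2 _ h
      rw [seed_adj] at hadj
      simp only at hadj
      exact ⟨u, hu, by omega⟩
  obtain ⟨b, hbT, hb, hab⟩ : ∃ b ∈ T, b.val ≤ n ∧ b.val ≠ a.val := by
    obtain ⟨x, hx1, hx2⟩ : ∃ x : Fin (n + 3), x.val ≤ n ∧ (x.val = a.val + 1 ∨ x.val + 1 = a.val) := by
      by_cases h : a.val = 0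
      · exact ⟨⟨1, by omega⟩, hn, by simp only; omega⟩
      · exact ⟨⟨a.val - 1, by omega⟩, by simp only; omega, by simp only; omega⟩
    by_cases h : x ∈ T
    · exact ⟨x, h, hx1, by omega⟩
    · obtain ⟨u, hu, hadj⟩ := hT.2 _ h
      rw [seed_adj] at hadj
      exact ⟨u, hu, by omega, by omega⟩
  have hsub : ({a, b, c} : Finset (Fin (n + 3))) ⊆ T := by
    intro z hz
    simp only [Finset.mem_insert, Finset.mem_singleton] at hz
    rcases hz with rfl | rfl | rfl <;> assumption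
  have h3 : ({a, b, c} : Finset (Fin (n + 3))).card = 3 := by
    rw [Finset.card_eq_three]
    refine ⟨a, b, c, ?_, ?_, ?_, rfl⟩ <;> intro h <;> have := congrArg Fin.val h <;> omega
  exact h3.symm.le.trans (Finset.card_le_card hsub)

/-- The vertices of the ladder as three-element sets. -/
def lad (n t s : ℕ) (ht : t < n) (hs : s < 2) : Finset (Fin (n + 3)) :=
  {⟨t, by omega⟩, ⟨t + 1, by omega⟩, ⟨n + 1 + s, by omega⟩}

lemma mem_lad {n t s : ℕ} {ht : t < n} {hs : s < 2} (x : Fin (n + 3)) :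
    x ∈ lad n t s ht hs ↔ x.val = t ∨ x.val = t + 1 ∨ x.val = n + 1 + s := by
  simp [lad, Fin.ext_iff]

lemma lad_iset (n t s : ℕ) (ht : t < n) (hs : s < 2) : IsISet (seed n) (lad n t s ht hs) := by
  refine ⟨⟨fun u hu v hv => ?_, fun v hv => ?_⟩, fun T hT => ?_⟩
  · rw [mem_lad] at hu hv
    rw [seed_adj]; omega
  · rw [mem_lad] at hv
    have hv3 := v.isLt
    by_cases h1 : v.val ≤ n
    · by_cases h2 : v.val < t
      · exact ⟨⟨t + 1, by omega⟩, (mem_lad _).2 (by simp), by rw [seed_adj]; simp only; omega⟩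
      · exact ⟨⟨t, by omega⟩, (mem_lad _).2 (by simp), by rw [seed_adj]; simp only; omega⟩
    · exact ⟨⟨n + 1 + s, by omega⟩, (mem_lad _).2 (by simp), by rw [seed_adj]; simp only; omega⟩
  · exact (Finset.card_le_three).trans (seed_three (by omega) T hT)

def ladV (n t s : ℕ) (ht : t < n) (hs : s < 2) : {S // IsISet (seed n) S} :=
  ⟨lad n t s ht hs, lad_iset n t s ht hs⟩

lemma ladV_inj {n t s t' s' : ℕ} {ht : t < n} {hs : s < 2} {ht' : t' < n} {hs' : s' < 2}
    (h : ladV n t s ht hs = ladV n t' s' ht' hs') : t = t' ∧ s = s' := by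
  have h' : lad n t s ht hs = lad n t' s' ht' hs' := congrArg Subtype.val h
  have h1 : (⟨t, by omega⟩ : Fin (n + 3)) ∈ lad n t' s' ht' hs' := by
    rw [← h', mem_lad]; simp
  have h2 : (⟨t + 1, by omega⟩ : Fin (n + 3)) ∈ lad n t' s' ht' hs' := by
    rw [← h', mem_lad]; simp
  have h3 : (⟨n + 1 + s, by omega⟩ : Fin (n + 3)) ∈ lad n t' s' ht' hs' := by
    rw [← h', mem_lad]; simp
  rw [mem_lad] at h1 h2 h3
  simp only at h1 h2 h3
  omega

lemma ladV_adj {n t s t' s' : ℕ} {ht : t < n} {hs : s < 2} {ht' : t' < n} {hs' : s' < 2} :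
    (iGraph (seed n)).Adj (ladV n t s ht hs) (ladV n t' s' ht' hs') ↔
      (s = s' ∧ (t + 1 = t' ∨ t' + 1 = t)) ∨ (t = t' ∧ s ≠ s') := by
  constructor
  · intro h
    have hne : ¬ (t = t' ∧ s = s') := by
      rintro ⟨rfl, rfl⟩
      exact h.ne rfl
    obtain ⟨u, -, -, hu⟩ := adj_unique h
    have key : ∀ z : Fin (n + 3), (z.val = t ∨ z.val = t + 1 ∨ z.val = n + 1 + s) →
        (z.val = t' ∨ z.val = t' + 1 ∨ z.val = n + 1 + s') ∨ z.val = u.val := by
      intro z hz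
      by_cases hz' : z ∈ lad n t' s' ht' hs'
      · exact Or.inl ((mem_lad _).1 hz')
      · exact Or.inr (congrArg Fin.val (hu z ((mem_lad (ht := ht) (hs := hs) _).2 hz) hz'))
    have h1 := key ⟨t, by omega⟩ (by simp)
    have h2 := key ⟨t + 1, by omega⟩ (by simp)
    have h3 := key ⟨n + 1 + s, by omega⟩ (by simp)
    simp only at h1 h2 h3
    omega
  · intro h
    obtain ⟨w, hw⟩ : ∃ w : Fin (n + 3), ∀ z : ℕ, (z = t ∨ z = t + 1 ∨ z = n + 1 + s) →
        ¬ (z = t' ∨ z = t' + 1 ∨ z = n + 1 + s') → z = w.val := by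
      rcases h with ⟨h1, h2 | h2⟩ | ⟨h1, h2⟩
      · exact ⟨⟨t, by omega⟩, fun z h3 h4 => by simp only; omega⟩
      · exact ⟨⟨t + 1, by omega⟩, fun z h3 h4 => by simp only; omega⟩
      · exact ⟨⟨n + 1 + s, by omega⟩, fun z h3 h4 => by simp only; omega⟩
    rcases close (ladV n t s ht hs) (ladV n t' s' ht' hs') w (fun z hz hz' =>
      Fin.ext (hw z.val ((mem_lad (ht := ht) (hs := hs) _).1 hz)
        (fun h => hz' ((mem_lad (ht := ht') (hs := hs') _).2 h)))) with h' | h'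
    · have := ladV_inj h'
      omega
    · exact h'

/-- position on the ladder after cutting the rung `j` -/
def pos (n j i : ℕ) : ℕ := if i < j then i + n - j else if i < n + j then i - j else i - n - j

/-- side on the ladder after cutting the rung `j` -/
def side (n j i : ℕ) : ℕ := if i < j then 1 else if i < n + j then 0 else 1

lemma pos_spec (n j i : ℕ) (hj : j < n) (h1 : i ≠ j) (h2 : i ≠ n + j) :
    (i < j ∧ pos n j i + j = i + n ∧ side n j i = 1) ∨
    (j < i ∧ i < n + j ∧ pos n j i + j = i ∧ side n j i = 0) ∨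
    (n + j < i ∧ pos n j i + n + j = i ∧ side n j i = 1) := by
  unfold pos side
  split_ifs <;> omega

lemma small_embeds {n s : ℕ} (hn : 3 ≤ n) (hs : s < n) (F : SimpleGraph (Fin s))
    (f : F ↪g moeb n) : Nonempty (F ↪g iGraph (seed n)) := by
  obtain ⟨j, hj⟩ : ∃ j : Fin n, ∀ x, (f x).val % n ≠ j.val := by
    by_contra hcon
    push Not at hcon
    have hsurj : Function.Surjective
        (fun x : Fin s => (⟨(f x).val % n, Nat.mod_lt _ (by omega)⟩ : Fin n)) := by
      intro j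
      obtain ⟨x, hx⟩ := hcon j
      exact ⟨x, Fin.ext hx⟩
    have := Fintype.card_le_of_surjective _ hsurj
    simp at this
    omega
  have hjn := j.isLt
  have hj' : ∀ x, (f x).val ≠ j.val ∧ (f x).val ≠ n + j.val := by
    intro x
    constructor
    · intro h
      apply hj x
      rw [h, Nat.mod_eq_of_lt hjn]
    · intro h
      apply hj x
      rw [h, Nat.add_mod_left, Nat.mod_eq_of_lt hjn]
  have hp : ∀ x, pos n j.val (f x).val < n := by
    intro x
    have := (f x).isLt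
    have := hj' x
    unfold pos; split_ifs <;> omega
  have hsd : ∀ x, side n j.val (f x).val < 2 := by
    intro x
    unfold side; split_ifs <;> omega
  refine ⟨⟨⟨fun x => ladV n _ _ (hp x) (hsd x), fun x y h => ?_⟩, fun {x y} => ?_⟩⟩
  · have h1 := ladV_inj h
    have := (f x).isLt
    have := (f y).isLt
    have hx := pos_spec n j.val (f x).val hjn (hj' x).1 (hj' x).2
    have hy := pos_spec n j.val (f y).val hjn (hj' y).1 (hj' y).2
    apply f.injective
    apply Fin.ext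
    rcases hx with hx | hx | hx <;> rcases hy with hy | hy | hy <;> omega
  · simp only [Function.Embedding.coeFn_mk]
    rw [ladV_adj, ← f.map_rel_iff, moeb_adj]
    have := (f x).isLt
    have := (f y).isLt
    have hx := pos_spec n j.val (f x).val hjn (hj' x).1 (hj' x).2
    have hy := pos_spec n j.val (f y).val hjn (hj' y).1 (hj' y).2
    generalize pos n j.val (f x).val = p at *
    generalize pos n j.val (f y).val = q at *
    generalize side n j.val (f x).val = p' at *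
    generalize side n j.val (f y).val = q' at *
    constructor
    · intro h
      rcases hx with hx | hx | hx <;> rcases hy with hy | hy | hy <;>
        rcases h with ⟨h1, h2 | h2⟩ | h <;> omega
    · rintro ⟨h0, h⟩
      rcases hx with hx | hx | hx <;> rcases hy with hy | hy | hy <;>
        rcases h with h | h | h | h | h | h <;> omega

theorem main : ¬ ∃ 𝓕 : Set (Σ s : ℕ, SimpleGraph (Fin s)), 𝓕.Finite ∧
    ∀ (n : ℕ), 0 < n → ∀ H : SimpleGraph (Fin n),
      (IsIGraph H ↔ ∀ F ∈ 𝓕, IsEmpty (F.2 ↪g H)) := by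
  rintro ⟨𝓕, hfin, h⟩
  obtain ⟨B, hB⟩ := (hfin.image (fun F => F.1)).bddAbove
  have hn : 3 ≤ B + 3 := by omega
  have h1 := (h (2 * (B + 3)) (by omega) (moeb (B + 3))).not.1 (moeb_not hn)
  push Not at h1
  obtain ⟨F, hF, ⟨f⟩⟩ := h1
  have hs : F.1 < B + 3 := by
    have := hB ⟨F, hF, rfl⟩
    simp only at this
    omega
  obtain ⟨g⟩ := small_embeds hn hs F.2 f
  classical
  let W := {S // IsISet (seed (B + 3)) S}
  let e : W ≃ Fin (Fintype.card W) := Fintype.equivFin W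
  have hpos : 0 < Fintype.card W :=
    Fintype.card_pos_iff.2 ⟨ladV (B + 3) 0 0 (by omega) (by omega)⟩
  let φ : (iGraph (seed (B + 3))).comap e.symm ≃g iGraph (seed (B + 3)) :=
    SimpleGraph.Iso.comap e.symm _
  have h2 := (h _ hpos ((iGraph (seed (B + 3))).comap e.symm)).1 ⟨_, _, ⟨φ⟩⟩ F hF
  exact h2.false (φ.symm.toEmbedding.comp g)

end Pool.Agent.H903Z.IG
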